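import Pool.Agent.D0H40.SP.NFD

/-!
# Partial Euler products of Hilbert newforms at the centre and the formula of Bloch and Kato

Let `g` be a Hilbert newform over the totally real field `F` as in the problem, of any weights, with the
eigenvalues `t_v`; they are real and `|t_v| ≤ 2 √q_v` for `v ∤ 𝔫` (Ramanujan–Petersson, proved by Blasius).  Let `S` be
a set of primes which contains the divisors of the level and the primes of norm at most four.  We consider
`Λ(s) = ∏_{v ∉ S} (1 - t_v q_v^(-s-1) + q_v^(-2s-1))⁻¹`, which has the same zeros with `Re s ≥ 0` as `L(g, s)`, with the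
same orders, its order `m = ord_{s=0} Λ = ord_{s=0} L(g, s)`, and the partial products at the centre

`P(n) = ∏_{v ∉ S, q_v ≤ n} (1 - t_v / q_v + 1 / q_v) = ∏_{v ∉ S, q_v ≤ n} L_v(g, 0)⁻¹`.

The formula of Bloch and Kato is `m = D`, `D = dim H¹_f(F, V_{g,λ})`.  Nothing but the reality, the bounds for `t_v` and
the meromorphic continuation to `Re s > 0` and `s = 0` are used (so `F` can be any number field, `g` need
not be a newform).  We say `RH` if `Λ` has no zeros and poles with `Re s > 0`; `Λ` is zero-dominated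
(pole-dominated) if it has a real zero (pole) `s₀ > 0` and no zeros and poles with `Re s > s₀`.  (`L(g, s)` is entire,
so it is not pole-dominated.)

* If `RH` fails and `Λ` is neither zero-dominated nor pole-dominated, then for every slowly changing
  subexponential sequence `f`, for example all powers of `log n`, every number `A ≥ 0` is a limit point of
  `P(n) / f(n)`.
* Zeros or poles with `Re s > θ` lead to `P(n) > exp (n^θ)` and `P(n) < exp (-n^θ)` for infinitely many `n`.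
* One-sided bounds `P(n) ≤ (log n)^(a + o(1))`, `P(n) ≥ (log n)^(a - o(1))` imply `RH` and `m ≤ a`, `a ≤ m`.
* `P(n) / (log n)^a → 0` implies `RH` and `m < a`; `P(n) / (log n)^a → ∞` implies `RH` and `a < m`;
  `P(n) / (log n)^a → A` with `0 < A < ∞` implies `RH` and `a = m`.
* Parity.  Let `D` be an integer with `D ≡ m` modulo two; for `D = dim H¹_f` this is known in many cases.  Then
  `P(n) / (log n)^(D+2) → 0` implies `m ≤ D` and `P(n) / (log n)^(D-2) → ∞` implies `D ≤ m`.  So the formula of Bloch and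
  Kato follows from these two conditions, in which there is a factor `(log n)^4` between the bounds.
* Means.  If only `P(n) ≤ exp (n^(o(1)))` (or only `P(n) ≥ exp (-n^(o(1)))`) then `RH` holds and, for every real
  number `D`, we have `m = D` if and only if `w ∫_e^∞ log (P([x]) / (log x)^D) x^(-1-w) dx` is bounded for `w → 0+`.
* The limit points of `P(n) / f(n)` form an interval.

The statements with lower bounds need that `Λ` is not zero-dominated, those with upper bounds that `Λ` is not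
pole-dominated.
-/

set_option autoImplicit false

namespace Pool.Agent.Results.MP_6e2fc3_nt.PartialEulerProducts

open Filter Topology NumberField IsDedekindDomain MeasureTheory

section Defs

variable {F : Type} [Field F] [NumberField F]

/-- `q_v` -/
noncomputable def primeNorm (v : HeightOneSpectrum (𝓞 F)) : ℕ := Ideal.absNorm v.asIdeal

/-- Real numbers `t_v` with `|t_v| ≤ 2 √q_v` for the primes `v ∉ S`, where `S` contains the primes of norm at most
four. -/
structure IsSystem (S : Set (HeightOneSpectrum (𝓞 F))) (t : HeightOneSpectrum (𝓞 F) → ℝ) : Prop where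
  norm : ∀ v, v ∉ S → 4 < primeNorm v
  bound : ∀ v, v ∉ S → |t v| ≤ 2 * √(primeNorm v)

/-- the Euler factor `(1 - t_v q_v^(-s-1) + q_v^(-2s-1))⁻¹` for `v ∉ S`, and `1` for `v ∈ S` -/
noncomputable def eulerFactor (S : Set (HeightOneSpectrum (𝓞 F))) (t : HeightOneSpectrum (𝓞 F) → ℝ) (s : ℂ)
    (v : HeightOneSpectrum (𝓞 F)) : ℂ :=
  open Classical in if v ∈ S then 1 else
    (1 - t v * (primeNorm v : ℂ) ^ (-s - 1) + (primeNorm v : ℂ) ^ (-(2 * s) - 1))⁻¹

/-- `Λ` is the (incomplete) L-function, a convergent Euler product for `Re s > 1/2`, continued meromorphically to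
`Re s > 0` and to `s = 0`. -/
structure IsContinuation (S : Set (HeightOneSpectrum (𝓞 F))) (t : HeightOneSpectrum (𝓞 F) → ℝ) (Λ : ℂ → ℂ) :
    Prop where
  mero : ∀ s : ℂ, 0 < s.re → MeromorphicAt Λ s
  zero : MeromorphicAt Λ 0
  prod : ∀ s : ℂ, 1 / 2 < s.re → HasProd (eulerFactor S t s) (Λ s)

/-- the product of `1 - t_v / q_v + 1 / q_v` over the primes `v ∉ S` with `q_v ≤ n` -/
noncomputable def partialProduct (S : Set (HeightOneSpectrum (𝓞 F))) (t : HeightOneSpectrum (𝓞 F) → ℝ) (n : ℕ) :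
    ℝ :=
  ∏ᶠ v ∈ {v : HeightOneSpectrum (𝓞 F) | v ∉ S ∧ primeNorm v ≤ n}, (1 - t v / primeNorm v + 1 / primeNorm v)

/-- the Riemann hypothesis: no zeros and poles with `Re s > 0` -/
def RH (Λ : ℂ → ℂ) : Prop := ∀ s : ℂ, 0 < s.re → meromorphicOrderAt Λ s = 0

/-- a real zero `s₀ > 0`, and no zeros and poles with real part greater than `s₀` -/
def ZeroDominated (Λ : ℂ → ℂ) : Prop :=
  ∃ s₀ : ℝ, 0 < s₀ ∧ 0 < meromorphicOrderAt Λ (s₀ : ℂ) ∧ ∀ s : ℂ, s₀ < s.re → meromorphicOrderAt Λ s = 0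

/-- a real pole `s₀ > 0`, and no zeros and poles with real part greater than `s₀` -/
def PoleDominated (Λ : ℂ → ℂ) : Prop :=
  ∃ s₀ : ℝ, 0 < s₀ ∧ meromorphicOrderAt Λ (s₀ : ℂ) < 0 ∧ ∀ s : ℂ, s₀ < s.re → meromorphicOrderAt Λ s = 0

/-- slowly changing subexponential sequences: `f(n) > 0` for large `n`, `f(n+1)/f(n) → 1` and
`|log f(n)| ≤ n^(o(1))` -/
structure IsSlow (f : ℕ → ℝ) : Prop where
  pos : ∀ᶠ n in atTop, 0 < f n
  ratio : Tendsto (fun n => f (n + 1) / f n) atTop (𝓝 1)
  sub : ∀ ε : ℝ, 0 < ε → ∀ᶠ n : ℕ in atTop, |Real.log (f n)| ≤ (n : ℝ) ^ ε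

/-- the sequence `(log n)^a` -/
noncomputable def logPow (a : ℝ) (n : ℕ) : ℝ := Real.log n ^ a

/-- the quotients `P(n) / f(n)` -/
noncomputable def quot (P f : ℕ → ℝ) (n : ℕ) : ℝ := P n / f n

/-- `A` is a limit point of the sequence `g` -/
def IsLimitPoint (g : ℕ → ℝ) (A : ℝ) : Prop :=
  ∃ n : ℕ → ℕ, Tendsto n atTop atTop ∧ Tendsto (fun k => g (n k)) atTop (𝓝 A)

/-- `w ∫_e^∞ g(x) x^(-1-w) dx` is bounded for `w → 0+`, where the integrals (written with `x = e^u`) converge for
`w > 0` -/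
def HasBoundedMean (g : ℝ → ℝ) : Prop :=
  (∀ w : ℝ, 0 < w → IntegrableOn (fun u : ℝ => g (Real.exp u) * Real.exp (-(w * u))) (Set.Ioi 1)) ∧
    ∃ C : ℝ, ∀ᶠ w : ℝ in 𝓝[>] 0, |w * ∫ u in Set.Ioi (1 : ℝ), g (Real.exp u) * Real.exp (-(w * u))| ≤ C

end Defs

/-! ### Translation to the definitions of the imported files -/

section Translation

variable {F : Type} [Field F] [NumberField F] {S : Set (HeightOneSpectrum (𝓞 F))}
  {t : HeightOneSpectrum (𝓞 F) → ℝ}

open Pool.Agent.D0H40.SP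
open Pool.Agent.D0H40.CX (NS MCont En Ev xq xq_cpow)
open Pool.Agent.H921R2.TatePole (nm two_le_nm)

theorem ns (h : IsSystem S t) : NS (qS S) (tS S t) (Module.finrank ℤ (𝓞 F)) :=
  ns_S (fun v hv => h.norm v hv) (fun v hv => h.bound v hv)

theorem q_pos (v : HeightOneSpectrum (𝓞 F)) : (0 : ℝ) < primeNorm v := by
  have := two_le_nm v
  have h : primeNorm v = nm v := rfl
  rw [h]
  exact_mod_cast (by omega : 0 < nm v)

theorem factor_eq (v : PS S) (s : ℂ) : eulerFactor S t s v.1 = Ev (qS S) (tS S t) v s := by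
  have hq := q_pos v.1
  have hqc : (primeNorm v.1 : ℂ) ≠ 0 := by exact_mod_cast hq.ne'
  have hqn : 0 < primeNorm v.1 := by exact_mod_cast hq
  have e1 : qS S v = primeNorm v.1 := rfl
  have e2 : ((tS S t v : ℝ) : ℂ) = t v.1 / primeNorm v.1 := by
    have : tS S t v = t v.1 / primeNorm v.1 := rfl
    rw [this]
    push_cast
    ring
  unfold eulerFactor Ev
  rw [if_neg v.2, e1, xq_cpow hqn, e2]
  have h2 : (primeNorm v.1 : ℂ) ^ (-s - 1) = (primeNorm v.1 : ℂ) ^ (-s) / primeNorm v.1 := by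
    rw [Complex.cpow_sub _ _ hqc, Complex.cpow_one]
  have h3 : (primeNorm v.1 : ℂ) ^ (-(2 * s) - 1) = ((primeNorm v.1 : ℂ) ^ (-s)) ^ 2 / primeNorm v.1 := by
    rw [Complex.cpow_sub _ _ hqc, Complex.cpow_one, ← Complex.cpow_nat_mul]
    congr 2
    push_cast
    ring
  rw [h2, h3]
  congr 1
  field_simp

theorem mcont (h : IsSystem S t) {Λ : ℂ → ℂ} (hΛ : IsContinuation S t Λ) :
    MCont (En (qS S) (tS S t)) (1 / 2) Λ where
  mero := hΛ.mero
  vert := hΛ.zero
  eq := fun s hs => by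
    classical
    have h1 := (ns h).hasProd hs
    rw [(ns h).En_eq hs] at h1
    have h2 : (fun v : PS S => Ev (qS S) (tS S t) v s) =
        (fun v : HeightOneSpectrum (𝓞 F) => eulerFactor S t s v) ∘ ((↑) : {v // v ∉ S} → _) := by
      funext v
      exact (factor_eq v s).symm
    rw [h2] at h1
    have h3 := (hasProd_subtype_iff_mulIndicator (s := {v | v ∉ S})).1 h1
    have h4 : Set.mulIndicator {v | v ∉ S} (fun v => eulerFactor S t s v) = fun v => eulerFactor S t s v := by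
      funext v
      rw [Set.mulIndicator_apply]
      by_cases hv : v ∉ S
      · rw [if_pos (show v ∈ {v | v ∉ S} from hv)]
      · rw [if_neg (show v ∉ {v | v ∉ S} from hv)]
        unfold eulerFactor
        rw [if_pos (not_not.1 hv)]
    rw [h4] at h3
    exact (hΛ.prod s hs).unique h3

theorem partial_eq (h : IsSystem S t) (n : ℕ) :
    partialProduct S t n = Real.exp (2 * SN (qS S) (tS S t) n) := by
  classical
  rw [exp_SN (ns h)]
  have hfin : {v : PS S | qS S v ≤ n}.Finite := by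
    refine ((ns h).le_finite n).subset fun v hv => ?_
    show (qS S v : ℝ) ≤ n
    exact_mod_cast hv
  have himg : {v : HeightOneSpectrum (𝓞 F) | v ∉ S ∧ primeNorm v ≤ n} =
      (fun v : PS S => v.1) '' {v : PS S | qS S v ≤ n} := by
    ext v
    constructor
    · rintro ⟨h1, h2⟩
      exact ⟨⟨v, h1⟩, h2, rfl⟩
    · rintro ⟨u, h1, rfl⟩
      exact ⟨u.2, h1⟩
  unfold partialProduct
  rw [himg, finprod_mem_image (fun a _ b _ hab => Subtype.ext hab)]
  refine finprod_mem_congr rfl fun v _ => ?_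
  have e1 : tS S t v = t v.1 / primeNorm v.1 := rfl
  have e2 : qS S v = primeNorm v.1 := rfl
  rw [e1, e2, one_div]

end Translation

theorem slow_iff {f : ℕ → ℝ} : IsSlow f ↔ Pool.Agent.D0H40.PL.Slow f :=
  ⟨fun h => ⟨h.pos, h.ratio, h.sub⟩, fun h => ⟨h.pos, h.ratio, h.sub⟩⟩

/-- **Partial Euler products at the centre and the formula of Bloch and Kato.** -/
theorem result (F : Type) [Field F] [NumberField F] (S : Set (HeightOneSpectrum (𝓞 F)))
    (t : HeightOneSpectrum (𝓞 F) → ℝ) (h : IsSystem S t) (Λ : ℂ → ℂ) (hΛ : IsContinuation S t Λ) :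
    ∃ m : ℤ, meromorphicOrderAt Λ 0 = m ∧
      -- failure of the Riemann hypothesis
      (¬ RH Λ → ¬ ZeroDominated Λ → ¬ PoleDominated Λ → ∀ f : ℕ → ℝ, IsSlow f → ∀ A : ℝ, 0 ≤ A →
        IsLimitPoint (quot (partialProduct S t) f) A) ∧
      (∀ θ : ℝ, 0 ≤ θ → (∃ s : ℂ, θ < s.re ∧ meromorphicOrderAt Λ s ≠ 0) →
        ((∀ x : ℝ, θ < x → 0 ≤ meromorphicOrderAt Λ (x : ℂ)) →
          ∃ᶠ n : ℕ in atTop, Real.exp ((n : ℝ) ^ θ) < partialProduct S t n) ∧
        ((∀ x : ℝ, θ < x → meromorphicOrderAt Λ (x : ℂ) ≤ 0) →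
          ∃ᶠ n : ℕ in atTop, partialProduct S t n < Real.exp (-(n : ℝ) ^ θ))) ∧
      -- one-sided bounds
      (∀ a : ℝ, (¬ PoleDominated Λ → (∀ ε : ℝ, 0 < ε → ∀ᶠ n : ℕ in atTop,
          partialProduct S t n ≤ Real.log n ^ (a + ε)) → RH Λ ∧ (m : ℝ) ≤ a) ∧
        (¬ ZeroDominated Λ → (∀ ε : ℝ, 0 < ε → ∀ᶠ n : ℕ in atTop,
          Real.log n ^ (a - ε) ≤ partialProduct S t n) → RH Λ ∧ a ≤ (m : ℝ))) ∧
      -- limits
      (∀ a : ℝ, (¬ PoleDominated Λ → Tendsto (quot (partialProduct S t) (logPow a)) atTop (𝓝 0) →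
          RH Λ ∧ (m : ℝ) < a) ∧
        (¬ ZeroDominated Λ → Tendsto (quot (partialProduct S t) (logPow a)) atTop atTop →
          RH Λ ∧ a < (m : ℝ)) ∧
        ∀ A : ℝ, 0 < A → Tendsto (quot (partialProduct S t) (logPow a)) atTop (𝓝 A) → RH Λ ∧ a = (m : ℝ)) ∧
      -- parity
      (∀ D : ℤ, Even (D - m) →
        (¬ PoleDominated Λ → Tendsto (quot (partialProduct S t) (logPow (D + 2))) atTop (𝓝 0) →
          RH Λ ∧ m ≤ D) ∧
        (¬ ZeroDominated Λ → Tendsto (quot (partialProduct S t) (logPow (D - 2))) atTop atTop →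
          RH Λ ∧ D ≤ m)) ∧
      -- means
      (¬ PoleDominated Λ → (∀ ε : ℝ, 0 < ε → ∀ᶠ n : ℕ in atTop,
          partialProduct S t n ≤ Real.exp ((n : ℝ) ^ ε)) → RH Λ ∧
        ∀ D : ℝ, HasBoundedMean (fun x => Real.log (partialProduct S t ⌊x⌋₊ / Real.log x ^ D)) ↔ D = m) ∧
      (¬ ZeroDominated Λ → (∀ ε : ℝ, 0 < ε → ∀ᶠ n : ℕ in atTop,
          Real.exp (-(n : ℝ) ^ ε) ≤ partialProduct S t n) → RH Λ ∧
        ∀ D : ℝ, HasBoundedMean (fun x => Real.log (partialProduct S t ⌊x⌋₊ / Real.log x ^ D)) ↔ D = m) ∧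
      -- the limit points form an interval
      (∀ f : ℕ → ℝ, IsSlow f → ∀ u v w : ℝ, u ≤ v → v ≤ w → IsLimitPoint (quot (partialProduct S t) f) u →
        IsLimitPoint (quot (partialProduct S t) f) w → IsLimitPoint (quot (partialProduct S t) f) v) := by
  have N := ns h
  have hM := mcont h hΛ
  obtain ⟨m, hm⟩ := Pool.Agent.D0H40.SP.order_zero N hM
  have D := Pool.Agent.D0H40.SP.ns_PD N hM
  obtain ⟨C, K, HL⟩ := Pool.Agent.D0H40.SP.ns_LeadB N hΛ.zero hm
  set s₁ : ℕ → ℝ := Pool.Agent.D0H40.SP.SN (Pool.Agent.D0H40.SP.qS S) (Pool.Agent.D0H40.SP.tS S t) with hs₁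
  have hP : ∀ n, partialProduct S t n = Real.exp (2 * s₁ n) := partial_eq h
  have hquot : ∀ f : ℕ → ℝ, quot (partialProduct S t) f = fun n => Real.exp (2 * s₁ n) / f n := by
    intro f
    funext n
    unfold quot
    rw [hP]
  have hlp : ∀ (f : ℕ → ℝ) (A : ℝ), IsLimitPoint (quot (partialProduct S t) f) A ↔
      Pool.Agent.D0H40.SP.LP2 s₁ f A := by
    intro f A
    rw [hquot]
    rfl
  have hlim : ∀ {a : ℝ} {l : Filter ℝ}, Tendsto (quot (partialProduct S t) (logPow a)) atTop l →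
      Tendsto (fun n : ℕ => Real.exp (2 * s₁ n) / Real.log n ^ a) atTop l := by
    intro a l hl
    rw [hquot] at hl
    exact hl
  have hmean : (∀ w > 0, Pool.Agent.W263.BSD.LInt (fun u => 2 * s₁ ⌊Real.exp u⌋₊) w) → ∀ r : ℝ,
      (HasBoundedMean (fun x => Real.log (partialProduct S t ⌊x⌋₊ / Real.log x ^ r)) ↔ r = m) := by
    intro hconv r
    have e : ∀ u ∈ Set.Ioi (1 : ℝ), ∀ w : ℝ, Real.log (partialProduct S t ⌊Real.exp u⌋₊ /
        Real.log (Real.exp u) ^ r) * Real.exp (-(w * u)) =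
        (2 * s₁ ⌊Real.exp u⌋₊ - r * Real.log u) * Real.exp (-(w * u)) := by
      intro u hu w
      have hu0 : (0 : ℝ) < u := lt_trans one_pos hu
      rw [hP, Real.log_exp, Real.log_div (Real.exp_pos _).ne' (Real.rpow_pos_of_pos hu0 _).ne', Real.log_exp,
        Real.log_rpow hu0]
    have hb := D.meanB HL hconv
    rw [← Pool.Agent.D0H40.SP.BM_iff hconv hb r]
    unfold HasBoundedMean Pool.Agent.D0H40.SP.BM
    constructor
    · rintro ⟨-, C', h2⟩
      refine ⟨C', ?_⟩
      filter_upwards [h2] with w hw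
      rwa [setIntegral_congr_fun measurableSet_Ioi (fun u hu => e u hu w)] at hw
    · rintro ⟨C', h2⟩
      refine ⟨fun w hw => ?_, C', ?_⟩
      · exact IntegrableOn.congr_fun (Pool.Agent.D0H40.SP.mean_int hconv r hw)
          (fun u hu => (e u hu w).symm) measurableSet_Ioi
      · filter_upwards [h2] with w hw
        rwa [setIntegral_congr_fun measurableSet_Ioi (fun u hu => e u hu w)]
  have hzero : ∀ a : ℝ, ¬ PoleDominated Λ → Tendsto (quot (partialProduct S t) (logPow a)) atTop (𝓝 0) →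
      RH Λ ∧ (m : ℝ) < a := fun a g h => D.zero2 HL g (hlim h)
  have htop : ∀ a : ℝ, ¬ ZeroDominated Λ → Tendsto (quot (partialProduct S t) (logPow a)) atTop atTop →
      RH Λ ∧ a < (m : ℝ) := fun a g h => D.top2 HL g (hlim h)
  refine ⟨m, hm, ?_, ?_, ?_, ?_, ?_, ?_, ?_, ?_⟩
  · intro g1 g2 g3 f hf A hA
    rw [hlp]
    exact D.wild2 g1 g2 g3 (slow_iff.1 hf) hA
  · rintro θ hθ hz
    have hle : ∀ n : ℕ, 0 ≤ (n : ℝ) ^ θ := fun n => Real.rpow_nonneg (Nat.cast_nonneg n) _
    constructor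
    · intro h4
      refine (D.large hθ hz h4).mono fun n hn => ?_
      rw [hP]
      have := hle n
      exact Real.exp_lt_exp.2 (by linarith)
    · intro h4
      refine (D.small hθ hz h4).mono fun n hn => ?_
      rw [hP]
      have := hle n
      exact Real.exp_lt_exp.2 (by linarith)
  · intro a
    constructor
    · intro g h1
      exact D.upper2 HL g fun ε hε => by
        filter_upwards [h1 ε hε] with n hn
        rw [← hP]
        exact hn
    · intro g h1
      exact D.lower2 HL g fun ε hε => by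
        filter_upwards [h1 ε hε] with n hn
        rw [← hP]
        exact hn
  · intro a
    exact ⟨hzero a, htop a, fun A hA h1 => D.pos2 HL hA (hlim h1)⟩
  · intro d hd
    constructor
    · intro g h1
      obtain ⟨h2, h3⟩ := hzero _ g h1
      refine ⟨h2, ?_⟩
      have h4 : m < d + 2 := by exact_mod_cast h3
      obtain ⟨r, hr⟩ := hd
      omega
    · intro g h1
      obtain ⟨h2, h3⟩ := htop _ g h1
      refine ⟨h2, ?_⟩
      have h4 : d - 2 < m := by exact_mod_cast h3
      obtain ⟨r, hr⟩ := hd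
      omega
  · intro g h1
    have h4 : ∀ ε : ℝ, 0 < ε → ∀ᶠ n : ℕ in atTop, s₁ n ≤ (n : ℝ) ^ ε := by
      intro ε hε
      filter_upwards [h1 ε hε] with n hn
      rw [hP, Real.exp_le_exp] at hn
      have : 0 ≤ (n : ℝ) ^ ε := Real.rpow_nonneg (Nat.cast_nonneg n) _
      linarith
    have h5 := D.rh_le g h4
    exact ⟨h5, hmean (D.conv_le h5 h4)⟩
  · intro g h1
    have h4 : ∀ ε : ℝ, 0 < ε → ∀ᶠ n : ℕ in atTop, -(n : ℝ) ^ ε ≤ s₁ n := by
      intro ε hε
      filter_upwards [h1 ε hε] with n hn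
      rw [hP, Real.exp_le_exp] at hn
      have : 0 ≤ (n : ℝ) ^ ε := Real.rpow_nonneg (Nat.cast_nonneg n) _
      linarith
    have h5 := D.rh_ge g h4
    exact ⟨h5, hmean (D.conv_ge h5 h4)⟩
  · intro f hf u v w huv hvw hu hw
    rw [hlp] at hu hw ⊢
    exact D.between2 (slow_iff.1 hf) huv hvw hu hw

end Pool.Agent.Results.MP_6e2fc3_nt.PartialEulerProducts
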