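import Pool.Agent.D0H10.Q4.AllQ
import Pool.Agent.D0H76.BKR.Twl
import Pool.Agent.D0H76.BKR.Fld
import Pool.Agent.D0H76.BKR.Deg
import Pool.Agent.D0H50.BK.Conc3

/-!
# The Bloch-Kato rank formula for the quartic twist forms over `ℚ(√p : p ∣ m)`

`m ≥ 1` is squarefree with all prime factors `≡ 1 mod 4`, `E_m` is the curve `y² = x³ + 2 m x` over `ℚ`,
a quartic twist of `y² = x³ - x` (complex multiplication by `ℤ[i]`), and `K = ℚ(√p : p ∣ m)`, a totally real
field of degree `2 ^ ω(m)`.  For a subfield `k` of `K` let `g` be the base change to `k` of the newform of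
`E_m` : a Hilbert modular newform of parallel weight two over `k` with trivial central character and
rational eigenvalues, `V_{g,2} = V_2 E_m` and `L(g, s) = L(E_m/k, s + 1)`.  The twists `g ⊗ χ` by the
characters `χ` of `Gal(K/k)` are the forms of the quadratic twists `y² = x³ + 2 m d² x`, `d ∣ m`.

Theorem: if the matrix `mat m` over the field with two elements is not singular (equivalent to: `E_m(ℚ)` is
finite and `Ш(E_m/ℚ)` has no element of order two), then both sides of the formula of Bloch and Kato for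
`λ = 2` are zero for all subfields `k` of `K` and for all the twists `g ⊗ χ` by the characters of `Gal(K/k)` :
`L(E/k, s)` is entire and is not zero at `s = 1`, and `H¹_f(k, V_2 E) = 0`, for the curves
`E : y² = x³ + 2 m d² x` and all `d ∣ m`; moreover `H¹_f(k, V_2 E ⊗ M) = 0` for all integral representations
`M` of `Gal(K/k)`.  The matrix is not singular for exactly the proportion
`∏_{i ≥ 0} (1 - 2^{-(2i+1)}) = 0.4194...` of all these `m`, ordered by size.

In particular, the `2 ^ ω(m)` central values `L(E_m ⊗ χ_d, 1)`, `d ∣ m`, are not zero at the same time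
(`k = ℚ`).  There is no hypothesis on the twists by `d ≠ 1`: modulo the primes above two the central
values of all of them are equal, because they are sums of values of an elliptic function at division points
times quartic residue symbols, and the twist by `d` replaces some of the symbols by their cubes; and
the 2-descent for `y² = x³ + 2 m d² x` leads to the same matrix.  The finiteness of `E(K)` and the bound
`2 ^ ω(m)` for the exponent of the 2-primary part of `Ш(E/K)` follow by the decomposition under `Gal(K/ℚ)`.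
The step to the Selmer groups of Bloch and Kato is `D0H50/BK` (helper50); the matrix, the central value for
`d = 1` and the proportion are those of `MP_4a9ea6_nt.TwoPartQuarticTwists` (helper10 and others).
-/

set_option autoImplicit false

open NumberField IsDedekindDomain
open Pool.Agent.D0H50.BK (SelmerZero)

namespace Pool.Agent.Results.MP_6e2fc3_nt.QuarticTwistForms

/-- The curve `y² = x³ + 2 m x` over `ℤ`. -/
def curve (m : ℕ) : WeierstrassCurve ℤ := ⟨0, 0, 0, 2 * m, 0⟩

/-- The curve over the field `k`. -/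
abbrev base (W : WeierstrassCurve ℤ) (k : Type) [Field k] : WeierstrassCurve k :=
  W.map (Int.castRingHom k)

/-- The number of the affine points `(x, y)` over the ring `R`. -/
noncomputable def pts (W : WeierstrassCurve ℤ) (R : Type) [CommRing R] : ℕ :=
  Nat.card {P : R × R // (W.map (Int.castRingHom R)).toAffine.Equation P.1 P.2}

section

variable {K : Type} [Field K] [NumberField K]

/-- `a_v = N v + 1 - #W(k_v)`, the points over the residue field `k_v` counted with the point at
infinity. -/
noncomputable def av (W : WeierstrassCurve ℤ) (v : HeightOneSpectrum (𝓞 K)) : ℤ :=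
  (Ideal.absNorm v.asIdeal : ℤ) - pts W (𝓞 K ⧸ v.asIdeal)

open Classical in
/-- The Euler factor of `L(W/K, s)` at `v` : `(1 - a_v N v^(-s) + N v^(1 - 2 s))⁻¹` if the
discriminant is a unit at `v`, and `(1 - a_v N v^(-s))⁻¹` otherwise. -/
noncomputable def factor (W : WeierstrassCurve ℤ) (s : ℂ) (v : HeightOneSpectrum (𝓞 K)) : ℂ :=
  (1 - (av W v : ℂ) * (Ideal.absNorm v.asIdeal : ℂ) ^ (-s) +
    if ((W.Δ : ℤ) : 𝓞 K) ∈ v.asIdeal then 0 else (Ideal.absNorm v.asIdeal : ℂ) ^ (1 - 2 * s))⁻¹

end

/-- `m` is squarefree and all its prime factors are `≡ 1 mod 4`. -/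
def Adm (m : ℕ) : Prop := Squarefree m ∧ ∀ p ∈ m.primeFactors, p % 4 = 1

open Classical in
/-- `1` if `a` is not a square modulo `p`, and `0` if it is. -/
noncomputable def nonsq (p a : ℕ) : ZMod 2 := if IsSquare (a : ZMod p) then 0 else 1

/-- The matrix over the field with two elements, with rows and columns indexed by the prime factors of
`m`: the entry at `(p, q)` is `nonsq p q` for `p ≠ q`, and the entry at `(p, p)` is the sum of
`nonsq p 2` and of the `nonsq p l` for all the prime factors `l ≠ p` of `m`. -/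
noncomputable def mat (m : ℕ) : Matrix m.primeFactors m.primeFactors (ZMod 2) :=
  Matrix.of fun p q =>
    if p = q then nonsq p 2 + ∑ l ∈ m.primeFactors.erase p, nonsq p l else nonsq p q

/-- `K = ℚ(√p : p ∣ m)`. -/
structure IsMq (m : ℕ) (K : Type) [Field K] [NumberField K] : Prop where
  ex : ∀ p ∈ m.primeFactors, ∃ x : K, x ^ 2 = (p : K)
  gen : IntermediateField.adjoin ℚ {x : K | ∃ p ∈ m.primeFactors, x ^ 2 = (p : K)} = ⊤

/-- The formula of Bloch and Kato for the curve `W` over `k` and `λ = 2`, both sides being zero: the Euler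
product of `W` over `k` extends from `Re s > 3/2` to an entire function which is not zero at `s = 1`, and
the Bloch-Kato Selmer groups `H¹_f(k, V_2 W ⊗ M)` are zero for all free `ℤ`-modules `M` of finite rank with an
action of `Gal(K/k)`. -/
structure RankFormula (W : WeierstrassCurve ℤ) (K : Type) [Field K] [NumberField K] [IsGalois ℚ K]
    (k : IntermediateField ℚ K) : Prop where
  analytic : ∃ L : ℂ → ℂ, Differentiable ℂ L ∧
    (∀ s : ℂ, 3 / 2 < s.re → HasProd (factor (K := k) W s) (L s)) ∧ L 1 ≠ 0
  selmer : ∀ (g : ℕ) (ρ : (K ≃ₐ[k] K) →* GL (Fin g) ℤ), SelmerZero (base W k) 2 ρ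

/-- The formula for the curves `y² = x³ + 2 m d² x`, `d ∣ m`, over all the subfields `k` of
`K = ℚ(√p : p ∣ m)`. -/
def AllForms (m : ℕ) : Prop := ∀ (K : Type) [Field K] [NumberField K], IsMq m K →
  ∃ _ : IsGalois ℚ K, IsTotallyReal K ∧ Module.finrank ℚ K = 2 ^ m.primeFactors.card ∧
    ∀ (k : IntermediateField ℚ K) (d : ℕ), d ∣ m → RankFormula (curve (m * d ^ 2)) K k

section proof

open Pool.Agent.D0H76.BKR (S_TWL ef)

lemma mq {m : ℕ} {K : Type} [Field K] [NumberField K] (h : IsMq m K) :
    Pool.Agent.D0H76.BKR.IsMq m K := ⟨h.ex, h.gen⟩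

/-- the central values -/
theorem twl : S_TWL := Pool.Agent.D0H76.BKR.twl_of Pool.Agent.D0H77.Q4.sup Pool.Agent.D0H54.Q4.hec
  Pool.Agent.D0H52.Q4.lim Pool.Agent.D0H10.Q4.betA Pool.Agent.D0H84.Q4.cri

theorem forms {m : ℕ} (h : Adm m) (hd : (mat m).det ≠ 0) : AllForms m := by
  intro K _ _ hK
  have hK' := mq hK
  have hG : IsGalois ℚ K := hK'.gal
  refine ⟨hG, hK'.real, hK'.deg, fun k d hdm => ⟨?_, fun g ρ => ?_⟩⟩
  · obtain ⟨ι, hι, δ, h1, h2⟩ := Pool.Agent.D0H76.BKR.euler_sub h hK' hdm k
    have h3 : ∀ e : ℕ, ∃ L : ℂ → ℂ, e ∣ m → Differentiable ℂ L ∧ L 1 ≠ 0 ∧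
        ∀ s : ℂ, (3 : ℝ) / 2 < s.re → HasProd (ef m e s) (L s) := by
      intro e
      by_cases he : e ∣ m
      · obtain ⟨L, hL⟩ := twl m h hd e he
        exact ⟨L, fun _ => hL⟩
      · exact ⟨0, fun h => absurd h he⟩
    choose G hG using h3
    refine ⟨fun s => ∏ i, G (δ i) s, ?_, fun s hs => ?_, ?_⟩
    · exact Differentiable.fun_finsetProd fun i _ => (hG (δ i) (h1 i)).1
    · exact h2 G (fun e he => (hG e he).2.2) s hs
    · exact Finset.prod_ne_zero_iff.2 fun i _ => (hG (δ i) (h1 i)).2.1
  · have hs := Pool.Agent.D0H76.BKR.Sup.of_dvd h.1.ne_zero hdm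
    have hfin := Pool.Agent.D0H76.BKR.finite_F h hd hK' hs
    have hsha := Pool.Agent.D0H76.BKR.sha_F h hd hK' hs
    exact Pool.Agent.D0H50.BK.all_zeroV (W := base (curve (m * d ^ 2)) k)
      (W' := base (curve (m * d ^ 2)) K) Pool.Agent.D0H76.BKR.cF_base Nat.prime_two hfin hsha ρ

end proof

open Classical in
/-- **The Bloch-Kato rank formula for the quartic twist forms.** -/
theorem result :
    (∀ m : ℕ, Adm m → (mat m).det ≠ 0 → AllForms m) ∧
    Filter.Tendsto (fun X : ℕ =>
        (((Finset.Icc 1 X).filter fun m => Adm m ∧ (mat m).det ≠ 0).card : ℝ) /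
        (((Finset.Icc 1 X).filter fun m => Adm m).card : ℝ)) Filter.atTop
      (nhds (∏' i : ℕ, (1 - (1 / 2 : ℝ) ^ (2 * i + 1)))) := by
  refine ⟨fun m h hd => forms h hd, ?_⟩
  refine Pool.Agent.D0H10.Q4.denQ.congr fun X => ?_
  exact congrArg₂ (fun a b : ℕ => (a : ℝ) / (b : ℝ))
    (congrArg Finset.card (Finset.ext fun m => by rw [Finset.mem_filter, Finset.mem_filter]; rfl)) rfl

end Pool.Agent.Results.MP_6e2fc3_nt.QuarticTwistForms
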